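import Mathlib
import Pool.Agent.Helper92.PO.Stmts

/-!
MP_c7ded2_lc, module PCON: the label constraints are polynomial-time functions.
-/

namespace Pool.Agent.Helper92.PO

open Function Pool.Agent.Helper52.Poly

theorem pcon_sm {γ : Type} [Enc γ] {u v : γ → Lab} (hu : PF u) (hv : PF v) :
    PF (fun c => sm (u c) (v c)) := by
  unfold sm
  refine PF.or (PF.eqNat (PF.fst' hu) (PF.const 0)) (PF.or (PF.eqNat (PF.fst' hv) (PF.const 0))
    (PF.and (PF.le (PF.snd' hu) (PF.add (PF.snd' hv) (PF.const 1)))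
      (PF.le (PF.snd' hv) (PF.add (PF.snd' hu) (PF.const 1)))))

theorem pcon_ispar {γ : Type} [Enc γ] {v u : γ → Lab} (hv : PF v) (hu : PF u) :
    PF (fun c => ispar (v c) (u c)) := by
  unfold ispar
  exact PF.and (PF.not (PF.eqNat (PF.fst' hu) (PF.const 0)))
    (PF.eqNat (PF.add (PF.snd' hu) (PF.const 1)) (PF.snd' hv))

theorem pcon_par {γ : Type} [Enc γ] (k : ℕ) {v u : γ → Lab} (hv : PF v) (hu : PF u) :
    PF (fun c => par k (v c) (u c)) := by
  unfold par
  exact PF.ite (b := fun c => (v c).1 ≤ 1) (PF.le (PF.fst' hv) (PF.const 1)) (PF.const true)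
    (PF.ite (b := fun c => (v c).1 = k) (PF.eqNat (PF.fst' hv) (PF.const k)) (pcon_ispar hv hu)
      (PF.ite (b := fun c => k < (v c).1) (PF.lt (PF.const k) (PF.fst' hv))
        (PF.not (pcon_ispar hv hu)) (PF.const true)))

theorem st_PCON : ST_PCON := by
  intro γ _ a b ha hb
  constructor
  · unfold Hc
    exact PF.and (pcon_sm ha hb) (PF.and (pcon_par 2 hb ha) (pcon_par 4 ha hb))
  · unfold Vc
    exact PF.and (pcon_sm ha hb) (PF.and (pcon_par 3 hb ha) (pcon_par 5 ha hb))

end Pool.Agent.Helper92.PO
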